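import Pool.Agent.N177.LE.Padic

/-!
# MP_898f40_nt: Euler factors at all large primes, in bounded families of varieties

We prove: **for every smooth proper morphism `f : X → S` of schemes of finite type over `ℤ` there is
an integer `N ≥ 1` such that the local Euler factors of all fibres of `f` at all primes `p` which do
not divide `N`, of good or bad reduction, are integral and independent of `ℓ`.**

More precisely, let `K` be a local field (henselian, with arbitrary ramification) with finite residue
field of characteristic `p ∤ N`, let `x ∈ S(K)` and `i ≥ 0`. Then there is a polynomial `P ∈ ℤ[T]` such
that `det (1 - F T | H^i(X_{x, \bar K}, ℚ_ℓ)^I) = P` for all primes `ℓ ≠ p`. In particular this holds for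
`x ∈ S(ℚ)` and `K = ℚ_p`, for all primes `p` not dividing `N`. The number `N` does not depend on `K`,
`x` and `i`.

For example, the smooth closed subvarieties of `ℙ^n` of degree at most `d` over all fields are the
fibres of finitely many such families (Hilbert schemes); so there is a number `P(n, d)` such that for
every smooth projective variety `X ⊆ ℙ^n` over `ℚ` of degree at most `d` the Euler factors at all
primes `p > P(n, d)`, in particular at all bad primes `p > P(n, d)`, are integral and independent
of `ℓ`. (For each single `X` only finitely many primes are bad, but every prime is bad for many members
of the family.)

The Euler factors are given by an abstract theory `T` with the following known properties: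

* `T.EqualCharacteristic`: integrality and independence of `ℓ` over local fields of positive
  characteristic (Deligne; Terasoma; Lu and Zheng);
* `T.TameSpecialization`: for a smooth proper family on the complement of a divisor with normal
  crossings relative to `ℤ`, and `p` prime to some number `M`, the representation on the cohomology of
  the fibre at a point depends only on the residue point and the initial terms of the equations of the
  divisor (Abhyankar's lemma, purity of the branch locus, Grothendieck's local monodromy theorem);

and `Hironaka` is the resolution of singularities for schemes of finite type over `ℚ`, spread out
over an open subset of `Spec ℤ`.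

The idea of the proof is that, outside finitely many primes, the base has a stratification by schemes
with a smooth compactification over `ℤ[1/N]` whose boundary is a divisor with normal crossings. So a
point over a local field `K` of mixed characteristic has a companion over `k((x))` with the same
residue point on the compactification and the same initial terms, hence with the same Euler factors.
-/

set_option autoImplicit false

open CategoryTheory Limits AlgebraicGeometry

namespace Pool.Agent.Results.MP_898f40_nt.FamiliesLargeCharacteristic

open Pool.Agent.N177.LP Pool.Agent.N177.LE

/-- Let `T` be the theory of the Euler factors of smooth proper varieties over local fields (with the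
properties listed above), and let `f : X → S` be a smooth proper morphism, where `S` is of finite
type over `ℤ`. There is `N ≠ 0` such that the Euler factors of the fibres of `f` at all points of
`S` with values in local fields with residue characteristic not dividing `N` are integral and
independent of `ℓ`; in particular this holds for the fibres at the rational points of `S`,
considered over `ℚ_p` for the prime numbers `p` not dividing `N`. -/
theorem result (T : EulerTheory) (h1 : T.EqualCharacteristic) (h2 : T.TameSpecialization)
    (h3 : Hironaka) {S X : Scheme.{0}} (s : S ⟶ Spec (.of ℤ)) (hs : LocallyOfFiniteType s)
    (hs' : QuasiCompact s) (f : X ⟶ S) (hf : Smooth f) (hf' : IsProper f) :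
    ∃ N : ℕ, N ≠ 0 ∧
      (∀ L : LocalField, ¬ L.p ∣ N → ∀ (x : Spec (.of L.K) ⟶ S) (i : ℕ),
        T.Independent L _ (pullback.snd f x) i) ∧
      ∀ (x : Spec (.of ℚ) ⟶ S) (p : ℕ) [Fact p.Prime], ¬ p ∣ N → ∀ i : ℕ,
        T.Independent (padic p) _
          (pullback.snd f (Spec.map (CommRingCat.ofHom (algebraMap ℚ ℚ_[p])) ≫ x)) i := by
  obtain ⟨N, hN, h⟩ := main h1 h2 h3 s hs hs' f hf hf'
  exact ⟨N, hN, h, fun x p _ hp i => h (padic p) (by rwa [padic_p]) _ i⟩

end Pool.Agent.Results.MP_898f40_nt.FamiliesLargeCharacteristic
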